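import Pool.Agent.Helper57.M.H

open Filter Topology MeasureTheory Set
open Pool.Agent.Helper57.PC

namespace Pool.Agent.Results.MP_8958e8_nt.BoundedError

/-- Unconditional bounded error law for the pair correlation of the ordinates of the zeros of
zeta, for all windows of length up to a power of `T`. With `S = T log T/(2π)` and
`A_T = ∫_0^T log²(t/2π) dt / (T log² T)`: for all `T ≥ T₀` and all `0 < α < β ≤ √T` the pair count
`N(T; α, β)` differs from `S ∫_α^β (F(u) + A_T - 1) du` by at most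
`C (1 + (β - α) T^(-1/100)) S`. -/
theorem result : ∃ C T₀ : ℝ, 0 < C ∧ ∀ T : ℝ, T₀ ≤ T →
    ∀ α β : ℝ, 0 < α → α < β → β ≤ Real.sqrt T →
      |pairCount T α β - (T * Real.log T / (2 * Real.pi)) * ∫ u in α..β,
          (pcDensity u + ((∫ t in (0:ℝ)..T, Real.log (t / (2 * Real.pi)) ^ 2) /
            (T * Real.log T ^ 2) - 1))| ≤
        C * (1 + (β - α) / T ^ (1/100 : ℝ)) * (T * Real.log T / (2 * Real.pi)) := by
  obtain ⟨C, hC, hU⟩ := Pool.Agent.Helper57.UV.ULP_holds
  obtain ⟨C', hC', hN⟩ := Pool.Agent.Helper57.UV.NLP_holds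
  obtain ⟨D, hD, h⟩ := Pool.Agent.Helper4.PF.bounded_full_F (c := 1/100) (θ := 15/16) (by norm_num)
    (by norm_num) (by norm_num) (by norm_num) hC hC' hU hN
  obtain ⟨T₀, hT₀⟩ := eventually_atTop.mp (h.and (eventually_gt_atTop 0))
  refine ⟨D, T₀, hD, fun T hT α β hα hαβ hβ => ?_⟩
  obtain ⟨h1, h2⟩ := hT₀ T hT
  have h3 := h1 α β hα hαβ hβ
  rw [Pool.Agent.Helper4.PU.AT_eq h2] at h3
  exact h3

end Pool.Agent.Results.MP_8958e8_nt.BoundedError
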